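import Pool.Agent.Q120.MF.Model

/-!
# Sums of Cramér's random set and an arbitrary set of shifts: weights of the windows
-/

set_option autoImplicit false

namespace Pool.Agent.Q120.SH

open Finset MeasureTheory Filter Pool.Agent.Q120.ET Pool.Agent.Q120.MF

/-- The sums `a + b`, `a ∈ S`, `a ≥ 3`, `b ∈ B`. -/
def sums (S B : Set ℕ) : Set ℕ := {m | ∃ a ∈ S, ∃ b ∈ B, 3 ≤ a ∧ m = a + b}

open Classical in
/-- The integers `n ≥ 3` such that `n + b` lies in `(x, x + h]` for some `b ∈ B`. -/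
noncomputable def rel (B : Set ℕ) (x h : ℕ) : Finset ℕ :=
  (Icc 3 (x + h)).filter (fun n => ∃ b ∈ B, x < n + b ∧ n + b ≤ x + h)

/-- The expected number of the elements `n` of the random set which have a translate in `(x, x + h]`. -/
noncomputable def weight (B : Set ℕ) (x h : ℕ) : ℝ := ∑ n ∈ rel B x h, 1 / Real.log (n : ℝ)

/-- `(x, x + h]` contains no sum. -/
def FreeSums (S B : Set ℕ) (x h : ℕ) : Prop := ∀ m ∈ sums S B, ¬ (x < m ∧ m ≤ x + h)

theorem mem_rel {B : Set ℕ} {x h n : ℕ} : n ∈ rel B x h ↔ 3 ≤ n ∧ ∃ b ∈ B, x < n + b ∧ n + b ≤ x + h := by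
  classical
  unfold rel
  rw [mem_filter, mem_Icc]
  constructor
  · rintro ⟨⟨h1, _⟩, h2⟩
    exact ⟨h1, h2⟩
  · rintro ⟨h1, b, hb, h2, h3⟩
    exact ⟨⟨h1, by omega⟩, b, hb, h2, h3⟩

theorem rel_mono {B : Set ℕ} {x h h' : ℕ} (hh : h ≤ h') : rel B x h ⊆ rel B x h' := by
  intro n hn
  rw [mem_rel] at hn ⊢
  obtain ⟨h1, b, hb, h2, h3⟩ := hn
  exact ⟨h1, b, hb, h2, by omega⟩

theorem three_le {B : Set ℕ} {x h n : ℕ} (hn : n ∈ rel B x h) : 3 ≤ n := (mem_rel.1 hn).1

theorem term_nonneg {n : ℕ} : 0 ≤ 1 / Real.log (n : ℝ) := by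
  have := Real.log_natCast_nonneg n
  positivity

theorem weight_mono {B : Set ℕ} {x h h' : ℕ} (hh : h ≤ h') : weight B x h ≤ weight B x h' :=
  sum_le_sum_of_subset_of_nonneg (rel_mono hh) (fun _ _ _ => term_nonneg)

theorem card_div_le_weight {B : Set ℕ} {x h : ℕ} (V : Finset ℕ) (hV : V ⊆ rel B x h) {z : ℝ}
    (hz : ((x + h : ℕ) : ℝ) ≤ z) : V.card / Real.log z ≤ weight B x h := by
  have h1 : ∑ n ∈ V, 1 / Real.log z ≤ ∑ n ∈ V, 1 / Real.log (n : ℝ) := by
    apply sum_le_sum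
    intro n hn
    have h2 := hV hn
    have h3 := three_le h2
    obtain ⟨_, b, hb, _, h4⟩ := mem_rel.1 h2
    have h5 : (n : ℝ) ≤ z := by
      have : ((n : ℕ) : ℝ) ≤ ((x + h : ℕ) : ℝ) := by
        have : n ≤ x + h := by omega
        exact_mod_cast this
      linarith
    have h6 : (0 : ℝ) < n := by
      have : 0 < n := by omega
      exact_mod_cast this
    have h7 := one_lt_log h3
    apply one_div_le_one_div_of_le (by linarith)
    exact Real.log_le_log h6 h5
  have h2 : ∑ n ∈ V, 1 / Real.log (n : ℝ) ≤ weight B x h :=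
    sum_le_sum_of_subset_of_nonneg hV (fun _ _ _ => term_nonneg)
  rw [sum_const, nsmul_eq_mul, mul_one_div] at h1
  linarith

theorem freeSums_iff {Ω : Type*} [MeasurableSpace Ω] {A : Ω → Set ℕ} {B : Set ℕ} {x h : ℕ} {ω : Ω} :
    FreeSums (A ω) B x h ↔ Disjoint (tr A (rel B x h) ω) (rel B x h) := by
  rw [Finset.disjoint_left]
  constructor
  · intro hf n hn1 hn2
    rw [mem_tr] at hn1
    obtain ⟨h1, b, hb, h2, h3⟩ := mem_rel.1 hn2
    exact hf (n + b) ⟨n, hn1.2, b, hb, h1, rfl⟩ ⟨h2, h3⟩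
  · rintro hd m ⟨a, ha, b, hb, h3, rfl⟩ ⟨h1, h2⟩
    have h4 : a ∈ rel B x h := mem_rel.2 ⟨h3, b, hb, h1, h2⟩
    exact hd (mem_tr.2 ⟨h4, ha⟩) h4

theorem freeSums_mono {S B : Set ℕ} {x h h' : ℕ} (hh : h' ≤ h) (hf : FreeSums S B x h) :
    FreeSums S B x h' := fun m hm hcon => hf m hm ⟨hcon.1, by omega⟩

theorem prod_le_exp_weight (V : Finset ℕ) :
    (∀ n ∈ V, 3 ≤ n) → ∏ n ∈ V, (1 - 1 / Real.log (n : ℝ)) ≤ Real.exp (-∑ n ∈ V, 1 / Real.log (n : ℝ)) := by
  intro hV
  rw [← sum_neg_distrib, Real.exp_sum]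
  apply Finset.prod_le_prod
  · intro n hn
    have h3 := one_lt_log (hV n hn)
    have : 1 / Real.log (n : ℝ) < 1 := by rw [div_lt_one (by linarith)]; exact h3
    linarith
  · intro n _
    exact Real.one_sub_le_exp_neg _

/-- The lower bound `∏ (1 - 1 / log n) ≥ c exp(-(1 + δ) ∑ 1 / log n)`. -/
theorem exp_weight_le_prod {δ : ℝ} (hδ : 0 < δ) : ∃ c : ℝ, 0 < c ∧ ∀ V : Finset ℕ, (∀ n ∈ V, 3 ≤ n) →
    c * Real.exp (-((1 + δ) * ∑ n ∈ V, 1 / Real.log (n : ℝ))) ≤ ∏ n ∈ V, (1 - 1 / Real.log (n : ℝ)) := by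
  obtain ⟨n0, hn0⟩ := eventually_atTop.1 ((Real.tendsto_log_atTop.comp
    (tendsto_natCast_atTop_atTop (R := ℝ))).eventually_ge_atTop ((1 + δ) / δ))
  have hfac : ∀ n : ℕ, 3 ≤ n → 0 < 1 - 1 / Real.log (n : ℝ) ∧ 1 - 1 / Real.log (n : ℝ) ≤ 1 := by
    intro n hn
    have h3 := one_lt_log hn
    have h4 : 1 / Real.log (n : ℝ) < 1 := by rw [div_lt_one (by linarith)]; exact h3
    have h5 := term_nonneg (n := n)
    constructor <;> linarith
  obtain ⟨c, hc⟩ : ∃ c : ℝ, c = ∏ n ∈ (Icc 3 n0), (1 - 1 / Real.log (n : ℝ)) := ⟨_, rfl⟩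
  have hc0 : 0 < c := by
    rw [hc]
    exact prod_pos (fun n hn => (hfac n (mem_Icc.1 hn).1).1)
  refine ⟨c, hc0, ?_⟩
  intro V hV
  classical
  rw [← prod_filter_mul_prod_filter_not V (fun n => n ≤ n0)]
  apply mul_le_mul _ _ (Real.exp_pos _).le
  · exact prod_nonneg (fun n hn => (hfac n (hV n (mem_filter.1 hn).1)).1.le)
  · rw [hc]
    have hsub : V.filter (fun n => n ≤ n0) ⊆ Icc 3 n0 := by
      intro n hn
      rw [mem_filter] at hn
      exact mem_Icc.2 ⟨hV n hn.1, hn.2⟩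
    rw [← prod_sdiff hsub]
    have h1 : ∏ n ∈ Icc 3 n0 \ V.filter (fun n => n ≤ n0), (1 - 1 / Real.log (n : ℝ)) ≤ 1 := by
      apply prod_le_one
      · intro n hn
        exact (hfac n (mem_Icc.1 (Finset.mem_sdiff.1 hn).1).1).1.le
      · intro n hn
        exact (hfac n (mem_Icc.1 (Finset.mem_sdiff.1 hn).1).1).2
    have h2 : 0 ≤ ∏ n ∈ V.filter (fun n => n ≤ n0), (1 - 1 / Real.log (n : ℝ)) :=
      prod_nonneg (fun n hn => (hfac n (hV n (mem_filter.1 hn).1)).1.le)
    nlinarith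
  · have h1 : ∑ n ∈ V.filter (fun n => ¬ n ≤ n0), 1 / Real.log (n : ℝ) ≤ ∑ n ∈ V, 1 / Real.log (n : ℝ) :=
      sum_le_sum_of_subset_of_nonneg (filter_subset _ _) (fun _ _ _ => term_nonneg)
    have h2 : Real.exp (-((1 + δ) * ∑ n ∈ V, 1 / Real.log (n : ℝ))) ≤
        Real.exp (-((1 + δ) * ∑ n ∈ V.filter (fun n => ¬ n ≤ n0), 1 / Real.log (n : ℝ))) := by
      apply Real.exp_le_exp.2
      nlinarith
    refine h2.trans ?_
    rw [mul_sum, ← sum_neg_distrib, Real.exp_sum]
    apply Finset.prod_le_prod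
    · intro n _
      positivity
    · intro n hn
      rw [mem_filter] at hn
      have hlog := hn0 n (by omega)
      simp only [Function.comp] at hlog
      rw [div_le_iff₀ hδ] at hlog
      have h3 := one_lt_log (hV n hn.1)
      obtain ⟨t, ht⟩ : ∃ t : ℝ, t = 1 / Real.log (n : ℝ) := ⟨_, rfl⟩
      have ht0 : 0 < t := by
        rw [ht]
        have : 0 < Real.log (n : ℝ) := by linarith
        positivity
      have htδ : (1 + δ) * t ≤ δ := by
        rw [ht, mul_one_div, div_le_iff₀ (by linarith)]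
        linarith
      have ht1 : t < 1 := by nlinarith
      rw [← ht, ← Real.le_log_iff_exp_le (by linarith)]
      have h7 := Real.one_sub_inv_le_log_of_pos (show 0 < 1 - t by linarith)
      refine le_trans ?_ h7
      have h8 : (1 - t)⁻¹ ≤ 1 + (1 + δ) * t := by
        rw [inv_le_iff_one_le_mul₀ (by linarith)]
        nlinarith
      linarith

/-- Greedy choice of pairwise unrelated elements. -/
theorem greedy {α : Type*} [DecidableEq α] (R : α → α → Prop) (hR : ∀ a b, R a b → R b a) (D : ℕ) :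
    ∀ Y : Finset α, (∀ x ∈ Y, ∃ F : Finset α, F.card ≤ D ∧ ∀ y ∈ Y, R x y → y ∈ F) →
      ∃ Z ⊆ Y, (∀ x ∈ Z, ∀ y ∈ Z, x ≠ y → ¬ R x y) ∧ Y.card ≤ (D + 1) * Z.card := by
  intro Y
  induction Y using Finset.strongInduction with
  | H Y ih =>
    intro hY
    rcases Y.eq_empty_or_nonempty with h0 | ⟨x, hx⟩
    · exact ⟨∅, empty_subset _, by simp, by simp [h0]⟩
    · obtain ⟨F, hF1, hF2⟩ := hY x hx
      obtain ⟨Y', hY'⟩ : ∃ Y' : Finset α, Y' = Y \ insert x F := ⟨_, rfl⟩
      have hsub : Y' ⊂ Y := by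
        rw [hY', ssubset_iff_of_subset sdiff_subset]
        exact ⟨x, hx, by simp⟩
      obtain ⟨Z, hZ1, hZ2, hZ3⟩ := ih Y' hsub (fun z hz => by
        obtain ⟨F', hF'1, hF'2⟩ := hY z (hsub.1 hz)
        exact ⟨F', hF'1, fun y hy => hF'2 y (hsub.1 hy)⟩)
      have hxZ : x ∉ Z := by
        intro hxZ
        have := hZ1 hxZ
        rw [hY', Finset.mem_sdiff] at this
        exact this.2 (mem_insert_self _ _)
      have hno : ∀ z ∈ Z, ¬ R x z := by
        intro z hz hRz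
        have h1 := hZ1 hz
        have h2 := hF2 z (hsub.1 h1) hRz
        rw [hY', Finset.mem_sdiff] at h1
        exact h1.2 (mem_insert_of_mem h2)
      refine ⟨insert x Z, ?_, ?_, ?_⟩
      · intro z hz
        rcases mem_insert.1 hz with h | hz
        · rw [h]; exact hx
        · exact hsub.1 (hZ1 hz)
      · intro a ha b hb hab
        rcases mem_insert.1 ha with h1 | ha
        · rcases mem_insert.1 hb with h2 | hb
          · exact absurd (h1.trans h2.symm) hab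
          · rw [h1]; exact hno b hb
        · rcases mem_insert.1 hb with h2 | hb
          · rw [h2]; exact fun h => hno a ha (hR _ _ h)
          · exact hZ2 a ha b hb hab
      · rw [card_insert_of_notMem hxZ]
        have h1 : Y.card ≤ Y'.card + (insert x F).card := by
          rw [hY']
          have := card_le_card (show Y ⊆ (Y \ insert x F) ∪ insert x F by
            intro y hy
            by_cases h : y ∈ insert x F
            · exact mem_union_right _ h
            · exact mem_union_left _ (Finset.mem_sdiff.2 ⟨hy, h⟩))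
          exact this.trans (card_union_le _ _)
        have h2 : (insert x F).card ≤ D + 1 := (card_insert_le _ _).trans (by omega)
        calc Y.card ≤ (D + 1) * Z.card + (D + 1) := by omega
          _ = (D + 1) * (Z.card + 1) := by ring

end Pool.Agent.Q120.SH
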