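import Pool.Agent.Q120.SH.Basic
import Pool.Agent.Q120.MF.Exists

/-!
# Sums of Cramér's random set and an arbitrary set of shifts: the two halves
-/

set_option autoImplicit false

namespace Pool.Agent.Q120.SH

open Finset MeasureTheory Filter Pool.Agent.Q120.ET Pool.Agent.Q120.MF

variable {Ω : Type*} [MeasurableSpace Ω] {μ : Measure Ω} [IsProbabilityMeasure μ] {A : Ω → Set ℕ}

theorem covered (hA : IsCramer μ A) (B X : Set ℕ) (f : ℕ → ℝ)
    (hX : Summable (X.indicator (fun x => Real.exp (-f x)))) :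
    ∀ᵐ ω ∂μ, ∀ᶠ x in atTop, x ∈ X → ∀ h, f x ≤ weight B x h → ¬ FreeSums (A ω) B x h := by
  classical
  have key : ∀ x, ∃ E : Set Ω, μ E ≤ ENNReal.ofReal (X.indicator (fun x => Real.exp (-f x)) x) ∧
      ∀ ω, ω ∉ E → x ∈ X → ∀ h, f x ≤ weight B x h → ¬ FreeSums (A ω) B x h := by
    intro x
    by_cases hx : x ∈ X ∧ ∃ h, f x ≤ weight B x h
    · obtain ⟨hx, hh⟩ := hx
      obtain ⟨h0, hh0, hmin⟩ : ∃ h0, f x ≤ weight B x h0 ∧ ∀ h, f x ≤ weight B x h → h0 ≤ h :=
        ⟨Nat.find hh, Nat.find_spec hh, fun h hfh => Nat.find_min' hh hfh⟩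
      refine ⟨{ω | FreeSums (A ω) B x h0}, ?_, ?_⟩
      · rw [Set.indicator_of_mem hx]
        have h1 : {ω | FreeSums (A ω) B x h0} =
            {ω | Disjoint (tr A (rel B x h0) ω) (rel B x h0)} := by
          ext ω
          exact freeSums_iff
        rw [h1, ← ofReal_measureReal, real_free hA (fun n hn => three_le hn)]
        apply ENNReal.ofReal_le_ofReal
        refine (prod_le_exp_weight _ (fun n hn => three_le hn)).trans ?_
        apply Real.exp_le_exp.2
        unfold weight at hh0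
        linarith
      · intro ω hω _ h hfh hfree
        apply hω
        exact freeSums_mono (hmin h hfh) hfree
    · refine ⟨∅, by simp, ?_⟩
      intro ω _ hxX h hfh
      exact absurd ⟨hxX, h, hfh⟩ hx
  choose E hE1 hE2 using key
  have hnn : ∀ x, 0 ≤ X.indicator (fun x => Real.exp (-f x)) x :=
    fun x => Set.indicator_nonneg (fun _ _ => (Real.exp_pos _).le) x
  have hsum : ∑' x, μ (E x) ≠ ⊤ := by
    refine ne_top_of_le_ne_top ?_ (ENNReal.tsum_le_tsum hE1)
    rw [← ENNReal.ofReal_tsum_of_nonneg hnn hX]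
    exact ENNReal.ofReal_ne_top
  filter_upwards [ae_eventually_notMem hsum] with ω hω
  filter_upwards [hω] with x hx
  exact hE2 x ω hx

open Classical in
/-- The elements of `X` in the block `[2^k, 2^(k+1))`. -/
noncomputable def block (X : Set ℕ) (k : ℕ) : Finset ℕ := (Ico (2 ^ k) (2 ^ (k + 1))).filter (fun x => x ∈ X)

theorem mem_block {X : Set ℕ} {k x : ℕ} : x ∈ block X k ↔ (2 ^ k ≤ x ∧ x < 2 ^ (k + 1)) ∧ x ∈ X := by
  classical
  unfold block
  rw [mem_filter, mem_Ico]

theorem dense_blocks {X : Set ℕ} {θ₁ θ' : ℝ} (h0 : 0 < θ') (h1 : θ₁ < θ')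
    (hX : ¬ Summable (X.indicator (fun x : ℕ => (x : ℝ) ^ (-θ')))) :
    ∃ᶠ k : ℕ in atTop, (2 : ℝ) ^ ((k : ℝ) * θ₁) ≤ ((block X k).card : ℝ) := by
  classical
  by_contra hcon
  rw [not_frequently] at hcon
  apply hX
  obtain ⟨g, hg⟩ : ∃ g : ℕ → ℝ, g = X.indicator (fun x : ℕ => (x : ℝ) ^ (-θ')) := ⟨_, rfl⟩
  rw [← hg]
  have hgnn : ∀ x, 0 ≤ g x := by
    intro x
    rw [hg]
    exact Set.indicator_nonneg (fun _ _ => Real.rpow_nonneg (Nat.cast_nonneg _) _) x
  obtain ⟨a, ha⟩ : ∃ a : ℕ → ℝ, a = fun k => ∑ x ∈ Ico (2 ^ k) (2 ^ (k + 1)), g x := ⟨_, rfl⟩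
  have ha0 : ∀ k, 0 ≤ a k := by
    intro k
    rw [ha]
    exact sum_nonneg (fun x _ => hgnn x)
  have hak : ∀ k, a k ≤ (block X k).card * (2 : ℝ) ^ (-((k : ℝ) * θ')) := by
    intro k
    have e1 : a k = ∑ x ∈ block X k, g x := by
      rw [ha]
      unfold block
      rw [sum_filter]
      refine sum_congr rfl (fun x _ => ?_)
      rw [hg]
      by_cases hx : x ∈ X
      · rw [if_pos hx]
      · rw [if_neg hx, Set.indicator_of_notMem hx]
    rw [e1, ← nsmul_eq_mul]
    apply sum_le_card_nsmul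
    intro x hx
    rw [mem_block] at hx
    rw [hg, Set.indicator_of_mem hx.2]
    have h2 : ((2 : ℝ) ^ k) ≤ (x : ℝ) := by exact_mod_cast hx.1.1
    have h3 : (2 : ℝ) ^ (-((k : ℝ) * θ')) = ((2 : ℝ) ^ k) ^ (-θ') := by
      rw [← Real.rpow_natCast, ← Real.rpow_mul (by norm_num)]
      congr 1
      ring
    rw [h3]
    exact Real.rpow_le_rpow_of_nonpos (by positivity) h2 (by linarith)
  have hasum : Summable a := by
    have hgeo : Summable (fun k : ℕ => ((2 : ℝ) ^ (θ₁ - θ')) ^ k) := by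
      apply summable_geometric_of_lt_one (by positivity)
      exact Real.rpow_lt_one_of_one_lt_of_neg (by norm_num) (by linarith)
    refine Summable.of_norm_bounded_eventually_nat hgeo ?_
    filter_upwards [hcon] with k hk
    rw [Real.norm_of_nonneg (ha0 k)]
    refine (hak k).trans ?_
    rw [not_le] at hk
    calc ((block X k).card : ℝ) * (2 : ℝ) ^ (-((k : ℝ) * θ'))
        ≤ (2 : ℝ) ^ ((k : ℝ) * θ₁) * (2 : ℝ) ^ (-((k : ℝ) * θ')) := by
          apply mul_le_mul_of_nonneg_right hk.le (by positivity)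
      _ = ((2 : ℝ) ^ (θ₁ - θ')) ^ k := by
          rw [← Real.rpow_add (by norm_num), ← Real.rpow_natCast, ← Real.rpow_mul (by norm_num)]
          congr 1
          ring
  have hind : ∀ m, ∑ x ∈ range (2 ^ m), g x = g 0 + ∑ k ∈ range m, a k := by
    intro m
    induction m with
    | zero => simp
    | succ m ih =>
      rw [sum_range_succ, ← add_assoc, ← ih, ha, range_eq_Ico, range_eq_Ico,
        sum_Ico_consecutive _ (Nat.zero_le _) (Nat.pow_le_pow_right (by norm_num) (by omega))]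
  apply summable_of_sum_range_le (c := g 0 + ∑' k, a k) hgnn
  intro n
  calc ∑ x ∈ range n, g x ≤ ∑ x ∈ range (2 ^ n), g x := by
        apply sum_le_sum_of_subset_of_nonneg
        · intro x hx
          rw [mem_range] at hx ⊢
          exact hx.trans (Nat.lt_two_pow_self)
        · intro x _ _
          exact hgnn x
    _ = g 0 + ∑ k ∈ range n, a k := hind n
    _ ≤ g 0 + ∑' k, a k := by
        have := hasum.sum_le_tsum (range n) (fun k _ => ha0 k)
        linarith

/-- The number of windows in conflict. -/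
theorem card_rel_le {B : Set ℕ} {k x h : ℕ} {θ : ℝ} (hθ1 : θ ≤ 1) (hx : x < 2 ^ (k + 1)) (hx1 : 1 ≤ x)
    (hxh : x + h ≤ 2 ^ (k + 2)) (hw : weight B x h ≤ θ * Real.log x) :
    (rel B x h).card ≤ (k + 2) ^ 2 := by
  have hl2 : Real.log 2 < 1 := by linarith [Real.log_two_lt_d9]
  have hl20 : 0 < Real.log 2 := Real.log_pos (by norm_num)
  have h1 := card_div_le_weight (B := B) (x := x) (h := h) (rel B x h) (Subset.refl _)
    (z := (2 : ℝ) ^ (k + 2)) (by exact_mod_cast hxh)
  have h2 : Real.log ((2 : ℝ) ^ (k + 2)) = (k + 2) * Real.log 2 := by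
    rw [Real.log_pow]; push_cast; ring
  rw [h2, div_le_iff₀ (by positivity)] at h1
  have h3 : Real.log (x : ℝ) ≤ (k + 1) * Real.log 2 := by
    have h4 : ((x : ℕ) : ℝ) ≤ (2 : ℝ) ^ (k + 1) := by exact_mod_cast hx.le
    have h5 := Real.log_le_log (by exact_mod_cast hx1) h4
    rw [Real.log_pow] at h5
    push_cast at h5
    exact h5
  have h4 : 0 ≤ Real.log (x : ℝ) := Real.log_natCast_nonneg x
  have h5 : θ * Real.log x ≤ k + 1 := by
    have : θ * Real.log x ≤ Real.log x := by nlinarith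
    have h6 : ((k : ℝ) + 1) * Real.log 2 ≤ k + 1 := by
      have : (0 : ℝ) ≤ (k : ℝ) + 1 := by positivity
      nlinarith
    linarith
  have h6 : ((rel B x h).card : ℝ) ≤ ((k : ℝ) + 2) ^ 2 := by
    have h7 : weight B x h * ((k + 2) * Real.log 2) ≤ (k + 1) * (k + 2) := by
      have h8 : weight B x h ≤ k + 1 := by linarith
      have h9 : ((k : ℝ) + 2) * Real.log 2 ≤ k + 2 := by
        have : (0 : ℝ) ≤ (k : ℝ) + 2 := by positivity
        nlinarith
      apply mul_le_mul h8 h9 (by positivity) (by positivity)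
    nlinarith
  exact_mod_cast h6

theorem weight_zero (B : Set ℕ) (x : ℕ) : weight B x 0 = 0 := by
  unfold weight
  have : rel B x 0 = ∅ := by
    rw [eq_empty_iff_forall_notMem]
    intro n hn
    obtain ⟨_, b, _, h1, h2⟩ := mem_rel.1 hn
    omega
  rw [this, sum_empty]

theorem freeSums_zero (S B : Set ℕ) (x : ℕ) : FreeSums S B x 0 := by
  intro m _ h
  omega

theorem card_shift_le {B : Set ℕ} {x : ℕ} (F : Finset ℕ) (hF : ∀ b ∈ F, b ∈ B ∧ b + 2 ≤ x) :
    F.card ≤ (rel B x 1).card := by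
  apply card_le_card_of_injOn (fun b => x + 1 - b)
  · intro b hb
    have h1 := hF b hb
    show x + 1 - b ∈ (rel B x 1 : Finset ℕ)
    rw [mem_rel]
    exact ⟨by omega, b, h1.1, by omega, by omega⟩
  · intro b hb b' hb' hbb'
    have h1 := hF b hb
    have h2 := hF b' hb'
    simp only at hbb'
    omega

/-- The main estimate: in a block with many positions some window is free. -/
theorem block_bound (hA : IsCramer μ A) {B : Set ℕ} (hB : B.Nonempty) (X : Set ℕ) {θ θ₁ : ℝ}
    (hθ : 0 < θ) (hθ1 : θ < θ₁) (h1 : θ₁ ≤ 1) :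
    ∃ k0 : ℕ, ∀ k ≥ k0, (2 : ℝ) ^ ((k : ℝ) * θ₁) ≤ ((block X k).card : ℝ) →
      μ {ω | ∀ x ∈ block X k, ¬ ∀ h, weight B x h ≤ θ * Real.log x → FreeSums (A ω) B x h} ≤
        ENNReal.ofReal (Real.exp (-(k : ℝ))) := by
  classical
  obtain ⟨b0, hb0⟩ := hB
  obtain ⟨δ, hδ⟩ : ∃ δ : ℝ, δ = (θ₁ - θ) / (2 * θ) := ⟨_, rfl⟩
  have hδ0 : 0 < δ := by rw [hδ]; apply div_pos (by linarith) (by linarith)
  obtain ⟨θ₂, hθ₂⟩ : ∃ θ₂ : ℝ, θ₂ = (1 + δ) * θ := ⟨_, rfl⟩
  have hθ₂' : θ₂ = (θ₁ + θ) / 2 := by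
    rw [hθ₂, hδ]
    field_simp
    ring
  obtain ⟨c, hc0, hc⟩ := exp_weight_le_prod hδ0
  obtain ⟨r, hr⟩ : ∃ r : ℝ, r = (2 : ℝ) ^ (θ₁ - θ₂) := ⟨_, rfl⟩
  have hr1 : 1 < r := by
    rw [hr]
    exact Real.one_lt_rpow (by norm_num) (by linarith)
  have hr0 : 0 < r := by linarith
  obtain ⟨c', hc'⟩ : ∃ c' : ℝ, c' = c * (2 : ℝ) ^ (-θ₂) := ⟨_, rfl⟩
  have hc'0 : 0 < c' := by rw [hc']; positivity
  have hT := (tendsto_pow_const_div_const_pow_of_one_lt 7 hr1).comp (tendsto_add_atTop_nat 2)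
  have hT2 := hT.eventually_lt_const (show (0 : ℝ) < c' / (4 * r ^ 2) by positivity)
  have hT3 := (tendsto_pow_const_div_const_pow_of_one_lt 2 (show (1 : ℝ) < 2 by norm_num)).comp
    (tendsto_add_atTop_nat 2)
  have hT4 := hT3.eventually_lt_const (show (0 : ℝ) < 1 / 2 by norm_num)
  obtain ⟨k0, hk0⟩ := eventually_atTop.1 (hT2.and hT4)
  refine ⟨max k0 (b0 + 3), ?_⟩
  intro k hk hcard
  have hkk0 : k0 ≤ k := (le_max_left _ _).trans hk
  have hkb0 : b0 + 3 ≤ k := (le_max_right _ _).trans hk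
  obtain ⟨hk1, hk2⟩ := hk0 k hkk0
  simp only [Function.comp] at hk1 hk2
  obtain ⟨L, hL⟩ : ∃ L : ℕ, L = (k + 2) ^ 2 := ⟨_, rfl⟩
  have hLpow : L ≤ 2 ^ (k + 1) := by
    rw [div_lt_iff₀ (by positivity)] at hk2
    have h2 : ((L : ℕ) : ℝ) ≤ ((2 ^ (k + 1) : ℕ) : ℝ) := by
      rw [hL]
      push_cast at hk2 ⊢
      have : (2 : ℝ) ^ (k + 2) = 2 * 2 ^ (k + 1) := by ring
      rw [this] at hk2
      linarith
    exact_mod_cast h2
  have hl2 : Real.log 2 < 1 := by linarith [Real.log_two_lt_d9]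
  have hl20 : 0 < Real.log 2 := Real.log_pos (by norm_num)
  have h2k : (2 : ℕ) ^ (k + 2) = 2 ^ (k + 1) + 2 ^ (k + 1) := by ring
  have h2k' : (2 : ℕ) ^ (k + 1) = 2 ^ k + 2 ^ k := by ring
  have hkpow : k < 2 ^ k := Nat.lt_two_pow_self
  -- elements of the block
  have hlog : ∀ x ∈ block X k, Real.log (x : ℝ) ≤ (k + 1) * Real.log 2 := by
    intro x hx
    rw [mem_block] at hx
    have h4 : ((x : ℕ) : ℝ) ≤ (2 : ℝ) ^ (k + 1) := by exact_mod_cast hx.1.2.le
    have h5 := Real.log_le_log (by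
      have : 0 < x := lt_of_lt_of_le (by positivity) hx.1.1
      exact_mod_cast this) h4
    rw [Real.log_pow] at h5
    push_cast at h5
    exact h5
  have hbig : ∀ x ∈ block X k, θ * Real.log x < weight B x L := by
    intro x hx
    have hx' := mem_block.1 hx
    have h3 : Finset.Ioc (x - b0) (x - b0 + L) ⊆ rel B x L := by
      intro n hn
      rw [Finset.mem_Ioc] at hn
      rw [mem_rel]
      exact ⟨by omega, b0, hb0, by omega, by omega⟩
    have h4 := card_div_le_weight _ h3 (z := (2 : ℝ) ^ (k + 2)) (by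
      have : x + L ≤ 2 ^ (k + 2) := by omega
      exact_mod_cast this)
    rw [Nat.card_Ioc, Real.log_pow] at h4
    have h5 : (x - b0 + L - (x - b0) : ℕ) = L := by omega
    rw [h5, hL] at h4
    push_cast at h4
    have h6 : ((k : ℝ) + 2) ^ 2 / ((k + 2) * Real.log 2) = (k + 2) / Real.log 2 := by
      field_simp
    rw [h6] at h4
    have h7 : ((k : ℝ) + 2) ≤ (k + 2) / Real.log 2 := by
      rw [le_div_iff₀ hl20]
      nlinarith [show (0 : ℝ) ≤ (k : ℝ) + 2 by positivity]
    have h8 := hlog x hx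
    have h9 : 0 ≤ Real.log (x : ℝ) := Real.log_natCast_nonneg x
    have h10 : θ * Real.log x ≤ Real.log x := by nlinarith
    have h11 : ((k : ℝ) + 1) * Real.log 2 ≤ k + 1 := by
      nlinarith [show (0 : ℝ) ≤ (k : ℝ) + 1 by positivity]
    rw [hL]
    linarith
  -- the longest admissible windows
  obtain ⟨H, hH⟩ : ∃ H : ℕ → ℕ, H = fun x => Nat.findGreatest (fun h => weight B x h ≤ θ * Real.log x) L :=
    ⟨_, rfl⟩
  have hHL : ∀ x, H x ≤ L := by
    intro x
    rw [hH]
    exact Nat.findGreatest_le L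
  have hHw : ∀ x ∈ block X k, weight B x (H x) ≤ θ * Real.log x := by
    intro x hx
    rw [hH]
    have h3 : weight B x 0 ≤ θ * Real.log x := by
      rw [weight_zero]
      have := Real.log_natCast_nonneg x
      positivity
    exact Nat.findGreatest_spec (P := fun h => weight B x h ≤ θ * Real.log x) (Nat.zero_le L) h3
  have hHmax : ∀ x ∈ block X k, ∀ h, weight B x h ≤ θ * Real.log x → h ≤ H x := by
    intro x hx h hh
    rw [hH]
    apply Nat.le_findGreatest
    · by_contra hcon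
      have := weight_mono (B := B) (x := x) (show L ≤ h by omega)
      linarith [hbig x hx]
    · exact hh
  have hgood : ∀ ω, ∀ x ∈ block X k, FreeSums (A ω) B x (H x) →
      ∀ h, weight B x h ≤ θ * Real.log x → FreeSums (A ω) B x h := by
    intro ω x hx hf h hh
    exact freeSums_mono (hHmax x hx h hh) hf
  have hne : (block X k).Nonempty := by
    rw [← card_pos]
    have h3 : (0 : ℝ) < (2 : ℝ) ^ ((k : ℝ) * θ₁) := by positivity
    have h4 : (0 : ℝ) < ((block X k).card : ℝ) := by linarith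
    exact_mod_cast h4
  by_cases hzero : ∃ x ∈ block X k, H x = 0
  · obtain ⟨x, hx, hx0⟩ := hzero
    have h3 : {ω | ∀ x ∈ block X k, ¬ ∀ h, weight B x h ≤ θ * Real.log x → FreeSums (A ω) B x h} = ∅ := by
      rw [Set.eq_empty_iff_forall_notMem]
      intro ω hω
      refine hω x hx (hgood ω x hx ?_)
      rw [hx0]
      exact freeSums_zero _ _ _
    rw [h3, measure_empty]
    exact bot_le
  · push Not at hzero
    obtain ⟨y0, hy0, hy0max⟩ := exists_max_image (block X k) id hne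
    have hy0' := mem_block.1 hy0
    have hw1 : weight B y0 1 ≤ θ * Real.log y0 := by
      have h3 := weight_mono (B := B) (x := y0) (show 1 ≤ H y0 by
        have := hzero y0 hy0
        omega)
      linarith [hHw y0 hy0]
    have hc1 : (rel B y0 1).card ≤ (k + 2) ^ 2 :=
      card_rel_le (by linarith) hy0'.1.2 (by omega) (by omega) hw1
    -- the relevant shifts
    obtain ⟨Bk, hBk⟩ : ∃ Bk : Finset ℕ, Bk = (range (y0 + L)).filter (fun b => b ∈ B) := ⟨_, rfl⟩
    have hBkcard : Bk.card ≤ 2 * L + 1 := by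
      have h3 : Bk ⊆ (Bk.filter (fun b => b + 2 ≤ y0)) ∪ Ico (y0 - 1) (y0 + L) := by
        intro b hb
        have hb' := hb
        rw [hBk, mem_filter, mem_range] at hb'
        by_cases h4 : b + 2 ≤ y0
        · exact mem_union_left _ (mem_filter.2 ⟨hb, h4⟩)
        · exact mem_union_right _ (mem_Ico.2 ⟨by omega, hb'.1⟩)
      have h4 : (Bk.filter (fun b => b + 2 ≤ y0)).card ≤ (rel B y0 1).card := by
        apply card_shift_le
        intro b hb
        rw [mem_filter, hBk, mem_filter] at hb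
        exact ⟨hb.1.2, hb.2⟩
      have h5 := (card_le_card h3).trans (card_union_le _ _)
      rw [Nat.card_Ico] at h5
      rw [← hL] at hc1
      omega
    obtain ⟨D, hD⟩ : ∃ D : ℕ, D = L * ((2 * L + 1) * L) := ⟨_, rfl⟩
    obtain ⟨Z, hZ1, hZ2, hZ3⟩ := greedy (fun x y => ¬ Disjoint (rel B x (H x)) (rel B y (H y)))
      (fun a b h h' => h h'.symm) D (block X k) (by
        intro x hx
        have hx' := mem_block.1 hx
        refine ⟨((rel B x (H x)) ×ˢ (Bk ×ˢ range L)).image (fun p => p.1 + p.2.1 - 1 - p.2.2), ?_, ?_⟩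
        · refine card_image_le.trans ?_
          rw [card_product, card_product, card_range, hD]
          have h3 : (rel B x (H x)).card ≤ L := by
            rw [hL]
            have := hHL x
            exact card_rel_le (by linarith) hx'.1.2 (by omega) (by omega) (hHw x hx)
          exact Nat.mul_le_mul h3 (Nat.mul_le_mul_right _ hBkcard)
        · intro y hy hxy
          rw [Finset.not_disjoint_iff] at hxy
          obtain ⟨n, hn1, hn2⟩ := hxy
          obtain ⟨h3, b, hb, h4, h5⟩ := mem_rel.1 hn2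
          have h6 : y ≤ y0 := hy0max y hy
          have h7 := hHL y
          rw [mem_image]
          refine ⟨(n, b, n + b - 1 - y), ?_, ?_⟩
          · rw [mem_product, mem_product, mem_range, hBk, mem_filter, mem_range]
            refine ⟨hn1, ⟨?_, hb⟩, ?_⟩
            · show b < y0 + L
              omega
            · show n + b - 1 - y < L
              omega
          · show n + b - 1 - (n + b - 1 - y) = y
            omega)
    -- the probability
    obtain ⟨BB, hBB⟩ : ∃ BB : Finset ℕ, BB = Z.biUnion (fun x => rel B x (H x)) := ⟨_, rfl⟩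
    have hW : ∀ x ∈ Z, rel B x (H x) ⊆ BB := by
      intro x hx
      rw [hBB]
      exact subset_biUnion_of_mem (fun x => rel B x (H x)) hx
    have hBB3 : ∀ n ∈ BB, 3 ≤ n := by
      intro n hn
      rw [hBB, mem_biUnion] at hn
      obtain ⟨x, _, hn⟩ := hn
      exact three_le hn
    have hdis : ∀ x ∈ Z, ∀ y ∈ Z, x ≠ y → Disjoint (rel B x (H x)) (rel B y (H y)) := by
      intro x hx y hy hxy
      exact not_not.1 (hZ2 x hx y hy hxy)
    have hprob := real_no_free hA hBB3 Z (fun x => rel B x (H x)) hW hdis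
    have hsub : {ω | ∀ x ∈ block X k, ¬ ∀ h, weight B x h ≤ θ * Real.log x → FreeSums (A ω) B x h} ⊆
        {ω | ∀ x ∈ Z, ¬ Disjoint (tr A BB ω) (rel B x (H x))} := by
      intro ω hω x hx hd
      refine hω x (hZ1 hx) (hgood ω x (hZ1 hx) ?_)
      rw [freeSums_iff]
      refine Finset.disjoint_left.2 (fun n hn1 hn2 => ?_)
      rw [mem_tr] at hn1
      exact Finset.disjoint_left.1 hd (mem_tr.2 ⟨hW x hx hn1.1, hn1.2⟩) hn2
    refine (measure_mono hsub).trans ?_
    rw [← ofReal_measureReal, hprob]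
    apply ENNReal.ofReal_le_ofReal
    -- each factor
    obtain ⟨p, hp⟩ : ∃ p : ℝ, p = c * Real.exp (-(θ₂ * ((k + 1) * Real.log 2))) := ⟨_, rfl⟩
    have hp0 : 0 < p := by rw [hp]; positivity
    have hpx : ∀ x ∈ Z, p ≤ ∏ n ∈ rel B x (H x), (1 - 1 / Real.log (n : ℝ)) := by
      intro x hx
      refine le_trans ?_ (hc (rel B x (H x)) (fun n hn => three_le hn))
      rw [hp]
      apply mul_le_mul_of_nonneg_left _ hc0.le
      apply Real.exp_le_exp.2
      have h3 := hHw x (hZ1 hx)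
      unfold weight at h3
      have h4 := hlog x (hZ1 hx)
      have h5 : (1 + δ) * ∑ n ∈ rel B x (H x), 1 / Real.log (n : ℝ) ≤ θ₂ * ((k + 1) * Real.log 2) := by
        calc (1 + δ) * ∑ n ∈ rel B x (H x), 1 / Real.log (n : ℝ)
            ≤ (1 + δ) * (θ * Real.log x) := by
              apply mul_le_mul_of_nonneg_left h3 (by linarith)
          _ = θ₂ * Real.log x := by rw [hθ₂]; ring
          _ ≤ _ := by
              apply mul_le_mul_of_nonneg_left h4
              rw [hθ₂]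
              have : 0 < 1 + δ := by linarith
              positivity
      linarith
    have hprod : ∏ x ∈ Z, (1 - ∏ n ∈ rel B x (H x), (1 - 1 / Real.log (n : ℝ))) ≤
        Real.exp (-(Z.card * p)) := by
      have h3 : ∏ x ∈ Z, (1 - ∏ n ∈ rel B x (H x), (1 - 1 / Real.log (n : ℝ))) ≤
          ∏ x ∈ Z, Real.exp (-p) := by
        apply Finset.prod_le_prod
        · intro x hx
          have h4 : ∏ n ∈ rel B x (H x), (1 - 1 / Real.log (n : ℝ)) ≤ 1 := by
            apply prod_le_one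
            · intro n hn
              have h5 := one_lt_log (three_le hn)
              have : 1 / Real.log (n : ℝ) < 1 := by rw [div_lt_one (by linarith)]; exact h5
              linarith
            · intro n hn
              have := term_nonneg (n := n)
              linarith
          linarith
        · intro x hx
          have h4 := hpx x hx
          have h5 := Real.one_sub_le_exp_neg p
          linarith
      refine h3.trans (le_of_eq ?_)
      rw [prod_const, ← Real.exp_nat_mul]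
      congr 1
      ring
    refine hprod.trans ?_
    apply Real.exp_le_exp.2
    -- `k ≤ |Z| p`
    have hD4 : (D : ℝ) + 1 ≤ 4 * ((k : ℝ) + 2) ^ 6 := by
      have h3 : D + 1 ≤ 4 * (k + 2) ^ 6 := by
        have h4 : (k + 2) ^ 6 = L ^ 3 := by rw [hL]; ring
        rw [h4, hD]
        have h5 : 1 ≤ L := by rw [hL]; exact Nat.one_le_pow _ _ (by omega)
        nlinarith [Nat.mul_le_mul h5 h5, Nat.mul_le_mul (Nat.mul_le_mul h5 h5) h5, Nat.mul_le_mul_left (L * L) h5]
      exact_mod_cast h3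
    have hZc : (2 : ℝ) ^ ((k : ℝ) * θ₁) ≤ (4 * ((k : ℝ) + 2) ^ 6) * Z.card := by
      have h3 : ((block X k).card : ℝ) ≤ ((D : ℝ) + 1) * Z.card := by exact_mod_cast hZ3
      have h4 : ((D : ℝ) + 1) * Z.card ≤ (4 * ((k : ℝ) + 2) ^ 6) * Z.card :=
        mul_le_mul_of_nonneg_right hD4 (Nat.cast_nonneg _)
      linarith
    have hpe : p = c' * (2 : ℝ) ^ (-((k : ℝ) * θ₂)) := by
      rw [hp, hc', mul_assoc, ← Real.rpow_add (by norm_num), Real.rpow_def_of_pos (by norm_num)]
      congr 2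
      ring
    have hmain : ((k : ℝ)) * (4 * ((k : ℝ) + 2) ^ 6) ≤ c' * r ^ k := by
      rw [div_lt_div_iff₀ (by positivity) (by positivity)] at hk1
      push_cast at hk1
      have h3 : r ^ (k + 2) = r ^ k * r ^ 2 := by ring
      rw [h3] at hk1
      have h4 : ((k : ℝ) + 2) ^ 7 * 4 < c' * r ^ k := by
        have h5 : 0 < r ^ 2 := by positivity
        have h6 : ((k : ℝ) + 2) ^ 7 * 4 * r ^ 2 < c' * r ^ k * r ^ 2 := by nlinarith
        exact lt_of_mul_lt_mul_right h6 h5.le
      have h5 : (k : ℝ) * (4 * ((k : ℝ) + 2) ^ 6) ≤ ((k : ℝ) + 2) ^ 7 * 4 := by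
        have h7 : ((k : ℝ) + 2) ^ 7 * 4 = ((k : ℝ) + 2) * (4 * ((k : ℝ) + 2) ^ 6) := by ring
        rw [h7]
        apply mul_le_mul_of_nonneg_right _ (by positivity)
        linarith
      linarith
    have hrk : r ^ k = (2 : ℝ) ^ ((k : ℝ) * θ₁) * (2 : ℝ) ^ (-((k : ℝ) * θ₂)) := by
      rw [hr, ← Real.rpow_natCast, ← Real.rpow_mul (by norm_num), ← Real.rpow_add (by norm_num)]
      congr 1
      ring
    have hfin : (k : ℝ) * (4 * ((k : ℝ) + 2) ^ 6) ≤ (Z.card * p) * (4 * ((k : ℝ) + 2) ^ 6) := by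
      refine hmain.trans ?_
      rw [hrk, hpe]
      have h3 : 0 ≤ c' * (2 : ℝ) ^ (-((k : ℝ) * θ₂)) := by positivity
      nlinarith [mul_le_mul_of_nonneg_right hZc h3]
    have h8 : (0 : ℝ) < 4 * ((k : ℝ) + 2) ^ 6 := by positivity
    have := le_of_mul_le_mul_right hfin h8
    linarith

theorem uncovered (hA : IsCramer μ A) {B : Set ℕ} (hB : B.Nonempty) (X : Set ℕ) {θ θ' : ℝ}
    (hθ : 0 < θ) (hθ' : θ < θ') (hX : ¬ Summable (X.indicator (fun x : ℕ => (x : ℝ) ^ (-θ')))) :
    ∀ᵐ ω ∂μ, ∃ᶠ x in atTop, x ∈ X ∧ ∀ h, weight B x h ≤ θ * Real.log x → FreeSums (A ω) B x h := by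
  classical
  have h1 : θ' ≤ 1 := by
    by_contra hcon
    push Not at hcon
    apply hX
    apply Summable.indicator
    exact Real.summable_nat_rpow.2 (by linarith)
  obtain ⟨θ₁, hθ₁⟩ : ∃ θ₁ : ℝ, θ₁ = (θ + θ') / 2 := ⟨_, rfl⟩
  obtain ⟨k0, hk0⟩ := block_bound hA hB X hθ (show θ < θ₁ by linarith) (show θ₁ ≤ 1 by linarith)
  have hfreq := dense_blocks (show 0 < θ' by linarith) (show θ₁ < θ' by linarith) hX
  obtain ⟨E, hE⟩ : ∃ E : ℕ → Set Ω, E = fun k => if k0 ≤ k ∧ (2 : ℝ) ^ ((k : ℝ) * θ₁) ≤ ((block X k).card : ℝ)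
    then {ω | ∀ x ∈ block X k, ¬ ∀ h, weight B x h ≤ θ * Real.log x → FreeSums (A ω) B x h} else ∅ := ⟨_, rfl⟩
  have hsum : ∑' k, μ (E k) ≠ ⊤ := by
    have hgeo : Summable (fun k : ℕ => Real.exp (-(k : ℝ))) := Real.summable_exp_neg_nat
    have h2 : ∀ k, μ (E k) ≤ ENNReal.ofReal (Real.exp (-(k : ℝ))) := by
      intro k
      rw [hE]
      show μ (if _ then _ else _) ≤ _
      split_ifs with h3
      · exact hk0 k h3.1 h3.2
      · rw [measure_empty]; exact bot_le
    refine ne_top_of_le_ne_top ?_ (ENNReal.tsum_le_tsum h2)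
    rw [← ENNReal.ofReal_tsum_of_nonneg (fun _ => (Real.exp_pos _).le) hgeo]
    exact ENNReal.ofReal_ne_top
  filter_upwards [ae_eventually_notMem hsum] with ω hω
  rw [frequently_atTop]
  intro N
  obtain ⟨k, hk1, hk2, hk3⟩ := (hfreq.and_eventually (hω.and (eventually_ge_atTop (max k0 N)))).exists
  have hkk0 : k0 ≤ k := (le_max_left _ _).trans hk3
  have hkN : N ≤ k := (le_max_right _ _).trans hk3
  rw [hE] at hk2
  simp only [if_pos (show k0 ≤ k ∧ (2 : ℝ) ^ ((k : ℝ) * θ₁) ≤ ((block X k).card : ℝ) from ⟨hkk0, hk1⟩)] at hk2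
  rw [Set.mem_ofPred_eq] at hk2
  push Not at hk2
  obtain ⟨x, hx, hfree⟩ := hk2
  have hx' := mem_block.1 hx
  refine ⟨x, ?_, hx'.2, hfree⟩
  have : k < 2 ^ k := Nat.lt_two_pow_self
  omega

end Pool.Agent.Q120.SH
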